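import Pool.Agent.Work.MP_e17eac_co.RINGU.RLUc

/-!
# Ring module, uniform version: the configuration gives an affine copy of the multipliers
-/

namespace Pool.Agent.Work.MP_e17eac_co.RINGU

open Finset
open scoped Pointwise
open Pool.Agent.Work.MP_e17eac_co.RING
open Pool.Agent.Work.MP_e17eac_co.RING.XRL

open XRLU in
theorem I_RLU (hSel : StSel) (hPrune : StPrune) (hEdge : StEdgeU) (hCls : StClsU)
    (hBSG : StBSGU) (hPop : StPop) (hDil : StDilU) (hSum : StSumU) (hNear : StNearU)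
    (hTri : StTri) (hAff : StAffU) : StRLU := by
  intro a R K L W₁ A T I ha ha1 hK hR hKR hL hW₁ h
  have hR0 : 0 < R := by linarith
  have hK1 : 1 ≤ K := by linarith
  have hK0 : 0 < K := by linarith
  have hkk : 1 ≤ R ^ a := Real.one_le_rpow hR ha.le
  have hp : ∀ {m n : ℕ}, m ≤ n → K ^ m ≤ K ^ n := fun hmn => pow_le_pow_right₀ hK1 hmn
  have h1a : 0 ≤ 1 / a := by positivity
  obtain ⟨W, hW⟩ : ∃ W, W = (K ^ 10) ^ (1 / a) := ⟨_, rfl⟩
  obtain ⟨M, hM⟩ : ∃ M, M = (K ^ 120000) ^ (1 / a) := ⟨_, rfl⟩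
  obtain ⟨x₁, x₂, x₀, C, A₀, β, Y, r, hx₁, hx₂, hx₀, hCA, h12, h01, h02, hspa, hbd, hYY, hC, hCc,
    hY, hA₀c⟩ := copy hSel hPrune hEdge hCls hBSG hPop hDil hNear hTri hAff ha ha1 hK hR hKR hW hM h
  have hWa : W ^ a = K ^ 10 := by rw [hW]; exact rp_inv ha (by positivity)
  have hMa : M ^ a = K ^ 120000 := by rw [hM]; exact rp_inv ha (by positivity)
  have hLL : ∀ n : ℕ, n ≤ 60000000 → K ^ n ≤ L := fun n hn => by rw [hL]; exact hp hn
  have hL0 : 0 < L := by rw [hL]; positivity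
  have hW₁a : W₁ ^ a = L := by rw [hW₁]; exact rp_inv ha hL0.le
  have hL1 : 1 ≤ L := by
    calc (1 : ℝ) ≤ K := hK1
      _ = K ^ 1 := (pow_one K).symm
      _ ≤ L := hLL 1 (by norm_num)
  have hW1 : 1 ≤ W := by rw [hW]; exact Real.one_le_rpow (one_le_pow₀ hK1) h1a
  have hM1 : 1 ≤ M := by rw [hM]; exact Real.one_le_rpow (one_le_pow₀ hK1) h1a
  have hW₁1 : 1 ≤ W₁ := by rw [hW₁]; exact Real.one_le_rpow hL1 h1a
  have hW0 : 0 < W := by linarith
  have hM0 : 0 < M := by linarith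
  have hW₁0 : 0 < W₁ := by linarith
  have h3a : (3 : ℝ) ^ a ≤ K := by
    calc (3 : ℝ) ^ a ≤ (3 : ℝ) ^ (1 : ℝ) := Real.rpow_le_rpow_of_exponent_le (by norm_num) ha1
      _ = 3 := Real.rpow_one _
      _ ≤ K := by linarith
  have h2a : (2 : ℝ) ^ a ≤ K := by
    calc (2 : ℝ) ^ a ≤ (2 : ℝ) ^ (1 : ℝ) := Real.rpow_le_rpow_of_exponent_le (by norm_num) ha1
      _ = 2 := Real.rpow_one _
      _ ≤ K := by linarith
  have h3W : 3 * W ≤ W₁ := le_of_rp ha (by positivity) hW₁0.le (by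
    rw [Real.mul_rpow (by norm_num) hW0.le, hWa, hW₁a]
    calc (3 : ℝ) ^ a * K ^ 10 ≤ K * K ^ 10 := by gcongr
      _ = K ^ 11 := by ring
      _ ≤ L := hLL _ (by norm_num))
  have hWW : W ≤ W₁ := by linarith
  have h3W₁ : 3 ≤ W₁ := by linarith
  have hWWr : W * W ≤ W₁ := le_of_rp ha (by positivity) hW₁0.le (by
    rw [Real.mul_rpow hW0.le hW0.le, hWa, hW₁a]
    calc K ^ 10 * K ^ 10 = K ^ 20 := by ring
      _ ≤ L := hLL _ (by norm_num))
  have h2WM : 2 * W * M ≤ W₁ := le_of_rp ha (by positivity) hW₁0.le (by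
    rw [Real.mul_rpow (by positivity) hM0.le, Real.mul_rpow (by norm_num) hW0.le, hWa, hMa, hW₁a]
    calc (2 : ℝ) ^ a * K ^ 10 * K ^ 120000 ≤ K * K ^ 10 * K ^ 120000 := by gcongr
      _ = K ^ 120011 := by ring
      _ ≤ L := hLL _ (by norm_num))
  have hs := h.slope
  have hpos : ∀ z w : ℝ, 1 ≤ W * |z - w| → z ≠ w := by
    rintro z w hz rfl
    rw [sub_self, abs_zero, mul_zero] at hz
    linarith
  have hx12 : x₁ ≠ x₂ := hpos _ _ h12
  have hC2 : ∀ x ∈ C, x ≠ x₂ := fun x hx => hpos _ _ (hC x hx).2.1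
  have hinj : Set.InjOn (cc x₁ x₂) (C : Set ℝ) := by
    intro x hx x' hx' hxx
    rw [← cc_inv hx12 (hC2 x hx), ← cc_inv hx12 (hC2 x' hx'), hxx]
  have hccb : ∀ x ∈ C, |cc x₁ x₂ x| ≤ W ∧ 1 ≤ W * |cc x₁ x₂ x| := fun x hx =>
    cc_bd hW1 (hs x (hCA hx)) (hs x₁ hx₁) (hs x₂ hx₂) (hC x hx).1 (hC x hx).2.1
  have hccb0 : |cc x₁ x₂ x₀| ≤ W ∧ 1 ≤ W * |cc x₁ x₂ x₀| :=
    cc_bd hW1 (hs x₀ hx₀) (hs x₁ hx₁) (hs x₂ hx₂) h01 h02
  have hWW0 : 0 < W * W := by positivity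
  refine ⟨W * W, C.image (cc x₁ x₂), A₀, fun c => r ((c * x₂ - x₁) / (c - 1)), β, Y, ?_, hWWr, ?_⟩
  · nlinarith
  refine ⟨?_, ?_, ?_, ?_, ?_, ?_, ?_, ?_⟩
  · intro c hc
    obtain ⟨x, hx, rfl⟩ := mem_image.mp hc
    exact ⟨(hccb x hx).1.trans hWW, (hccb x hx).2.trans (by gcongr)⟩
  · rw [card_image_of_injOn hinj]
    exact hCc.trans (by gcongr; exact hLL _ (by norm_num))
  · intro c δ hδ
    exact reg_cc hR hK0 (regA h) hCA hW1 hs (hs x₂ hx₂) h12
      (fun x hx => (hC x hx).2.1) (by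
        rw [Real.mul_rpow (by norm_num) hW0.le, hWa]
        calc K * ((2 : ℝ) ^ a * K ^ 10) ≤ K * (K * K ^ 10) := by gcongr
          _ = K ^ 12 := by ring
          _ ≤ L := hLL _ (by norm_num)) c δ hδ
  · intro u hu
    exact (hbd u hu).trans (by gcongr)
  · intro c hc
    obtain ⟨x, hx, rfl⟩ := mem_image.mp hc
    rw [cc_inv hx12 (hC2 x hx)]
    exact (hC x hx).2.2.2.1
  · intro c hc
    obtain ⟨x, hx, rfl⟩ := mem_image.mp hc
    rw [cc_inv hx12 (hC2 x hx)]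
    exact (hC x hx).2.2.2.2.trans h3W
  · exact hY.trans (mul_le_mul_of_nonneg_right h2WM (abs_nonneg _))
  · intro γ hγ
    have h100 : 100 ≤ K ^ 337920 := by
      calc (100 : ℝ) ≤ K := hK
        _ = K ^ 1 := (pow_one K).symm
        _ ≤ _ := hp (by norm_num)
    have hY1 : (A₀.card : ℝ) ≤ K ^ 120 * ((dl (cc x₁ x₂ x₀ / (W * W)) A₀).card : ℝ) := by
      refine spa_dl (by positivity) hspa ?_
      rw [abs_div, abs_of_pos hWW0, ← mul_div_assoc, le_div_iff₀ hWW0, one_mul]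
      calc W * W ≤ (W ^ 3) * 1 := by
            have : W ^ 3 = W * W * W := by ring
            rw [this, mul_one]
            nlinarith
        _ ≤ W ^ 3 * (W * |cc x₁ x₂ x₀|) := by
            gcongr
            exact hccb0.2
        _ = W ^ 4 * |cc x₁ x₂ x₀| := by ring
    have h2 := hSum (K ^ 337920) (R ^ a) A₀ (dl (cc x₁ x₂ x₀ / (W * W)) A₀)
      (fun i => γ i / (W * W)) h100 hkk
      (by
        calc R ^ a ≤ K ^ 2640 * (A₀.card : ℝ) := hA₀c
          _ ≤ K ^ 2640 * (K ^ 120 * ((dl (cc x₁ x₂ x₀ / (W * W)) A₀).card : ℝ)) := by gcongr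
          _ = K ^ 2760 * ((dl (cc x₁ x₂ x₀ / (W * W)) A₀).card : ℝ) := by
            rw [← mul_assoc, ← pow_add]
          _ ≤ K ^ 337920 * ((dl (cc x₁ x₂ x₀ / (W * W)) A₀).card : ℝ) := by
            gcongr
            norm_num)
      hYY (by
        intro i
        rcases hγ i with hi | hi
        · left
          obtain ⟨x, hx, hxi⟩ := mem_image.mp hi
          rw [← hxi]
          exact (hC x hx).2.2.1
        · right
          obtain ⟨x, hx, hxi⟩ := mem_image.mp hi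
          rw [← neg_div, ← hxi]
          exact (hC x hx).2.2.1)
    refine h2.trans ?_
    rw [← pow_mul]
    exact mul_le_mul_of_nonneg_right (hLL _ (by norm_num)) (by linarith)

end Pool.Agent.Work.MP_e17eac_co.RINGU
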