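import Pool.Agent.Work.MP_e17eac_co.Bd.B04

/-!
# Ring module, uniform version, item UPU: many quadruples for the quotients
-/

namespace Pool.Agent.Work.MP_e17eac_co.RINGU

open Finset
open scoped Pointwise
open Pool.Agent.Work.MP_e17eac_co.RING

namespace XUPU

/-- Cauchy-Schwarz: a map with few values has many coincidences. -/
theorem cs {ι : Type} [DecidableEq ι] (S : Finset ι) (g : ι → ℤ) :
    (S.card : ℝ) ^ 2 ≤ ((S.image g).card : ℝ) *
      (((S ×ˢ S).filter fun z => g z.1 = g z.2).card : ℝ) := by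
  have h1 : (S.card : ℝ) = ∑ j ∈ S.image g, ((S.filter fun i => g i = j).card : ℝ) := by
    rw [Finset.card_eq_sum_card_image g S]
    push_cast
    rfl
  have h2 : (((S ×ˢ S).filter fun z => g z.1 = g z.2).card : ℝ) =
      ∑ j ∈ S.image g, ((S.filter fun i => g i = j).card : ℝ) ^ 2 := by
    have h3 : ((S ×ˢ S).filter fun z => g z.1 = g z.2).card =
        ∑ j ∈ S.image g, (((S ×ˢ S).filter fun z => g z.1 = g z.2).filter
          fun z => g z.1 = j).card := by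
      apply Finset.card_eq_sum_card_fiberwise
      intro z hz
      have hz' := Finset.mem_filter.mp (Finset.mem_coe.mp hz)
      have := (Finset.mem_product.mp hz'.1).1
      exact Finset.mem_coe.mpr (Finset.mem_image_of_mem g this)
    rw [h3]
    push_cast
    refine Finset.sum_congr rfl fun j _ => ?_
    have h4 : (((S ×ˢ S).filter fun z => g z.1 = g z.2).filter fun z => g z.1 = j) =
        (S.filter fun i => g i = j) ×ˢ (S.filter fun i => g i = j) := by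
      ext z
      simp only [Finset.mem_filter, Finset.mem_product]
      constructor
      · rintro ⟨⟨⟨h5, h6⟩, h7⟩, h8⟩
        exact ⟨⟨h5, h8⟩, h6, h7 ▸ h8⟩
      · rintro ⟨⟨h5, h8⟩, h6, h7⟩
        exact ⟨⟨⟨h5, h6⟩, h8.trans h7.symm⟩, h8⟩
    rw [h4, Finset.card_product]
    push_cast
    ring
  rw [h1, h2]
  exact sq_sum_le_card_mul_sum_sq

/-- The linear estimate. -/
theorem lin (W R Y s e w t β x x' y y' c c' d d' : ℝ) (hL : 100 ≤ W) (hR : 1 ≤ R)
    (hs : 0 < s) (hse : s = |e|) (hsL : s ≤ 2 * W) (ht : t = w / (2 * e)) (ht2 : |t| ≤ 2)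
    (hY : R ≤ W * |Y|)
    (hx : |x - (β + Y * c)| ≤ W) (hx' : |x' - (β + Y * c')| ≤ W)
    (hy : |y - (β + Y * d)| ≤ W) (hy' : |y' - (β + Y * d')| ≤ W)
    (hf : |(2 * e * x + w * x') - (2 * e * y + w * y')| < W) :
    |c - d + t * (c' - d')| ≤ W ^ 4 / (s * R) := by
  have he : e ≠ 0 := by
    intro h
    rw [h, abs_zero] at hse
    exact hs.ne' hse
  have hw : w = 2 * e * t := by
    rw [ht]
    field_simp
  have h1 : 2 * s * |(x - y) + t * (x' - y')| < W := by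
    have h2 : (2 * e * x + w * x') - (2 * e * y + w * y') = 2 * e * ((x - y) + t * (x' - y')) := by
      rw [hw]
      ring
    rw [h2, abs_mul, abs_mul, abs_two, ← hse] at hf
    exact hf
  -- the error terms
  have h3 : Y * (c - d + t * (c' - d')) = ((x - y) + t * (x' - y')) -
      (x - (β + Y * c)) + (y - (β + Y * d)) - t * (x' - (β + Y * c')) +
      t * (y' - (β + Y * d')) := by
    ring
  have h4 : |Y| * |c - d + t * (c' - d')| ≤ |(x - y) + t * (x' - y')| + 6 * W := by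
    rw [← abs_mul, h3]
    have e1 : |t * (x' - (β + Y * c'))| ≤ 2 * W := by
      rw [abs_mul]
      exact mul_le_mul ht2 hx' (abs_nonneg _) (by norm_num)
    have e2 : |t * (y' - (β + Y * d'))| ≤ 2 * W := by
      rw [abs_mul]
      exact mul_le_mul ht2 hy' (abs_nonneg _) (by norm_num)
    rw [abs_le] at hx hy e1 e2
    set Z := (x - y) + t * (x' - y') with hZ
    have hZ1 := neg_abs_le Z
    have hZ2 := le_abs_self Z
    rw [abs_le]
    constructor <;> linarith [hx.1, hx.2, hy.1, hy.2, e1.1, e1.2, e2.1, e2.2]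
  set m := |c - d + t * (c' - d')| with hm
  have hm0 : 0 ≤ m := abs_nonneg _
  have h5 : s * (|Y| * m) ≤ 13 * W ^ 2 := by
    have h6 : s * (|Y| * m) ≤ s * |(x - y) + t * (x' - y')| + 6 * W * s := by
      nlinarith [mul_le_mul_of_nonneg_left h4 hs.le]
    have h7 : 6 * W * s ≤ 12 * W ^ 2 := by nlinarith
    nlinarith
  rw [le_div_iff₀ (by positivity)]
  have h8 : m * (s * R) ≤ W * (s * (|Y| * m)) := by
    have : m * (s * R) ≤ m * s * (W * |Y|) := by
      have := mul_le_mul_of_nonneg_left hY (mul_nonneg hm0 hs.le)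
      nlinarith
    nlinarith
  have h9 : W * (s * (|Y| * m)) ≤ W * (13 * W ^ 2) :=
    mul_le_mul_of_nonneg_left h5 (by linarith)
  have h10 : W * (13 * W ^ 2) ≤ W ^ 4 := by
    have : 0 ≤ W ^ 3 := by positivity
    nlinarith
  linarith

end XUPU

open XUPU in
theorem I_UPU (hcov : StCovU) : StUpU := by
  intro a R L W r D A₀ q β Y ha ha1 hL hLW hWa hr hrW hR h c₁ hc₁ c₂ hc₂ c₃ hc₃ c₄ hc₄ d₁ hd₁
    d₂ hd₂ hs h1 h2
  have hcv := hcov a R L W r D A₀ q β Y ha ha1 hL hLW hWa hr hrW hR h c₁ hc₁ c₂ hc₂ c₃ hc₃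
    c₄ hc₄ d₁ hd₁ d₂ hd₂ hs h1 h2
  set e := c₃ - c₄ with he
  set w := c₁ - c₂ + (d₁ - d₂) with hw
  have hR0 : 0 < R := by linarith
  have hs0 : 0 < |e| := by
    by_contra hcon
    have h0 : |e| ≤ 0 := not_lt.mp hcon
    have : R * |e| ≤ 0 := mul_nonpos_of_nonneg_of_nonpos hR0.le h0
    linarith
  have he0 : e ≠ 0 := abs_pos.mp hs0
  have hL0 : 0 < L := by linarith
  have hW0 : 0 < W := by linarith
  have hr0 : 0 < r := by linarith
  have hsL : |e| ≤ 2 * W := by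
    have h3 := (h.bdD c₃ hc₃).1
    have h4 := (h.bdD c₄ hc₄).1
    rw [abs_le] at h3 h4
    rw [he, abs_le]
    constructor <;> linarith [h3.1, h3.2, h4.1, h4.2]
  have ht2 : |w / (2 * e)| ≤ 2 := by
    rw [abs_div, abs_mul, abs_two, div_le_iff₀ (by positivity)]
    have h3 : |w| ≤ |c₁ - c₂| + |d₁ - d₂| := abs_add_le _ _
    linarith
  -- the map
  set g : ℝ × ℝ → ℤ := fun z => 
    ⌊(2 * e * ((q z.1 : ℤ) : ℝ) + w * ((q z.2 : ℤ) : ℝ)) / r⌋ with hg
  have hcs := cs (D ×ˢ D) g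
  -- few values
  have hval : (((D ×ˢ D).image g).card : ℝ) ≤ 288 * L ^ 6 * R ^ a * |e| ^ a := by
    refine le_trans ?_ hcv
    have hsub : (D ×ˢ D).image g ⊆ (A₀ ×ˢ A₀).image fun z : ℤ × ℤ =>
        ⌊(2 * e * (z.1 : ℝ) + w * (z.2 : ℝ)) / r⌋ := by
      intro j hj
      obtain ⟨z, hz, rfl⟩ := Finset.mem_image.mp hj
      rw [Finset.mem_product] at hz
      exact Finset.mem_image.mpr ⟨(q z.1, q z.2),
        Finset.mem_product.mpr ⟨h.mem _ hz.1, h.mem _ hz.2⟩, rfl⟩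
    exact_mod_cast Finset.card_le_card hsub
  -- injection
  set Q := quad D (w / (2 * e)) (W ^ 4 / (|e| * R)) with hQ
  have hinj : (((D ×ˢ D) ×ˢ (D ×ˢ D)).filter fun z => g z.1 = g z.2).card ≤ Q.card := by
    refine Finset.card_le_card_of_injOn
      (fun z : (ℝ × ℝ) × (ℝ × ℝ) => ((z.1.1, z.2.1), (z.1.2, z.2.2))) ?_ ?_
    · intro z hz
      have hz' := Finset.mem_filter.mp (Finset.mem_coe.mp hz)
      obtain ⟨hz1, hz2⟩ := hz'
      rw [Finset.mem_product, Finset.mem_product, Finset.mem_product] at hz1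
      obtain ⟨⟨p1, p2⟩, p3, p4⟩ := hz1
      apply Finset.mem_coe.mpr
      rw [hQ, quad, Finset.mem_filter]
      refine ⟨?_, ?_⟩
      · rw [Finset.mem_product, Finset.mem_product, Finset.mem_product]
        exact ⟨⟨p1, p3⟩, p2, p4⟩
      · refine lin W R Y |e| e w (w / (2 * e)) β ((q z.1.1 : ℤ) : ℝ) ((q z.1.2 : ℤ) : ℝ)
          ((q z.2.1 : ℤ) : ℝ) ((q z.2.2 : ℤ) : ℝ) z.1.1 z.1.2 z.2.1 z.2.2 (hL.trans hLW) hR hs0
          rfl hsL rfl ht2 h.low (h.aff _ p1) (h.aff _ p2) (h.aff _ p3) (h.aff _ p4) ?_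
        have hfl := Int.abs_sub_lt_one_of_floor_eq_floor hz2
        rw [← sub_div, abs_div, abs_of_pos hr0, div_lt_one hr0] at hfl
        exact lt_of_lt_of_le hfl hrW
    · intro z _ z' _ hzz
      simp only [Prod.mk.injEq] at hzz
      obtain ⟨⟨q1, q2⟩, q3, q4⟩ := hzz
      exact Prod.ext (Prod.ext q1 q3) (Prod.ext q2 q4)
  have hinj' : ((((D ×ˢ D) ×ˢ (D ×ˢ D)).filter fun z => g z.1 = g z.2).card : ℝ) ≤
      (Q.card : ℝ) := by exact_mod_cast hinj
  -- the computation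
  have hDc : (((D ×ˢ D).card : ℕ) : ℝ) = (D.card : ℝ) ^ 2 := by
    rw [Finset.card_product]
    push_cast
    ring
  rw [hDc] at hcs
  set X := R ^ a with hX
  have hX0 : 0 < X := Real.rpow_pos_of_pos hR0 a
  set σ := |e| ^ a with hσ
  have hσ0 : 0 < σ := Real.rpow_pos_of_pos hs0 a
  have hX3 : R ^ (3 * a) = X ^ 3 := by
    rw [hX, ← Real.rpow_natCast, ← Real.rpow_mul hR0.le]
    norm_num
    rw [mul_comm]
  rw [hX3]
  have hq0 : (0 : ℝ) ≤ (Q.card : ℝ) := Nat.cast_nonneg _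
  have hd : X ≤ L * (D.card : ℝ) := h.card
  have hd4 : X ^ 4 ≤ L ^ 4 * (288 * L ^ 6 * X * σ * (Q.card : ℝ)) := by
    calc X ^ 4 ≤ (L * (D.card : ℝ)) ^ 4 := pow_le_pow_left₀ hX0.le hd 4
      _ = L ^ 4 * ((D.card : ℝ) ^ 2) ^ 2 := by ring
      _ ≤ L ^ 4 * (288 * L ^ 6 * X * σ * (Q.card : ℝ)) := by
          refine mul_le_mul_of_nonneg_left ?_ (by positivity)
          refine le_trans hcs ?_
          exact mul_le_mul hval hinj' (Nat.cast_nonneg _) (by positivity)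
  have h5 : X ^ 3 ≤ 288 * L ^ 10 * σ * (Q.card : ℝ) := by
    have h6 : X * X ^ 3 ≤ X * (288 * L ^ 10 * σ * (Q.card : ℝ)) := by
      calc X * X ^ 3 = X ^ 4 := by ring
        _ ≤ L ^ 4 * (288 * L ^ 6 * X * σ * (Q.card : ℝ)) := hd4
        _ = X * (288 * L ^ 10 * σ * (Q.card : ℝ)) := by ring
    exact le_of_mul_le_mul_left h6 hX0
  refine le_trans h5 ?_
  have h7 : 288 * L ^ 10 ≤ L ^ 12 := by
    have h8 : (288 : ℝ) ≤ L ^ 2 := by nlinarith
    calc 288 * L ^ 10 ≤ L ^ 2 * L ^ 10 := mul_le_mul_of_nonneg_right h8 (by positivity)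
      _ = L ^ 12 := by ring
  have h9 : 0 ≤ σ * (Q.card : ℝ) := mul_nonneg hσ0.le hq0
  calc 288 * L ^ 10 * σ * (Q.card : ℝ) = 288 * L ^ 10 * (σ * (Q.card : ℝ)) := by ring
    _ ≤ L ^ 12 * (σ * (Q.card : ℝ)) := mul_le_mul_of_nonneg_right h7 h9
    _ = L ^ 12 * σ * (Q.card : ℝ) := by ring

end Pool.Agent.Work.MP_e17eac_co.RINGU
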