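import Pool.Agent.Work.MP_e17eac_co.Bd.B04
import Pool.Agent.Work.MP_f39168_co.SD.Graph

set_option autoImplicit false

namespace Pool.Agent.Work.MP_e17eac_co.RINGU

open Finset
open scoped Pointwise
open Pool.Agent.Work.MP_e17eac_co.RING

namespace XBSGU

lemma spa_card {L ρ : ℝ} {S : Finset ℤ} (h : Spa L ρ S) (y : ℝ) :
    (S.filter fun u : ℤ => |(u : ℝ) - y| ≤ ρ).card ≤ ⌊L⌋₊ :=
  Nat.le_floor (h y)

/-- The image of the paths determines the path up to few choices. -/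
lemma paths_le (L c r ρ : ℝ) (U V : Finset ℤ) (hr : 1 ≤ r) (hrρ : r ≤ ρ) (hc : r ≤ ρ * |c|)
    (hU : Spa L ρ U) (hV : Spa L ρ V) (u v : ℤ) (P : Finset (ℤ × ℤ)) (hP : P ⊆ U ×ˢ V) :
    P.card ≤ (⌊L⌋₊ * ⌊L⌋₊) * (P.image fun z : ℤ × ℤ =>
      ((⌊((u : ℝ) - c * (z.2 : ℝ)) / r⌋, ⌊((z.1 : ℝ) - c * (z.2 : ℝ)) / r⌋,
        ⌊((z.1 : ℝ) - c * (v : ℝ)) / r⌋) : ℤ × ℤ × ℤ)).card := by
  classical
  refine Finset.card_le_mul_card_image P _ ?_
  intro t _
  have hr0 : 0 < r := by linarith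
  have hρ0 : 0 < ρ := by linarith
  have hc0 : 0 < |c| := by
    by_contra hcon
    have : |c| = 0 := le_antisymm (not_lt.1 hcon) (abs_nonneg c)
    rw [this, mul_zero] at hc
    linarith
  set Fb := P.filter (fun z : ℤ × ℤ =>
      ((⌊((u : ℝ) - c * (z.2 : ℝ)) / r⌋, ⌊((z.1 : ℝ) - c * (z.2 : ℝ)) / r⌋,
        ⌊((z.1 : ℝ) - c * (v : ℝ)) / r⌋) : ℤ × ℤ × ℤ) = t) with hFb
  have hmem : ∀ z ∈ Fb, ⌊((u : ℝ) - c * (z.2 : ℝ)) / r⌋ = t.1 ∧
      ⌊((z.1 : ℝ) - c * (v : ℝ)) / r⌋ = t.2.2 := by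
    intro z hz
    rw [hFb, Finset.mem_filter] at hz
    have h := hz.2
    exact ⟨by rw [← h], by rw [← h]⟩
  rcases Fb.eq_empty_or_nonempty with he | ⟨w, hw⟩
  · rw [he, Finset.card_empty]
    exact Nat.zero_le _
  · have key : ∀ x y : ℝ, ⌊x / r⌋ = ⌊y / r⌋ → |x - y| < r := by
      intro x y hxy
      have h1 := Int.abs_sub_lt_one_of_floor_eq_floor hxy
      have h2 : |x - y| = r * |x / r - y / r| := by
        rw [← abs_of_pos hr0, ← abs_mul]
        rw [abs_of_pos hr0]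
        congr 1
        field_simp
      rw [h2]
      nlinarith
    have hsub : Fb ⊆ (U.filter fun x : ℤ => |(x : ℝ) - (w.1 : ℝ)| ≤ ρ) ×ˢ
        (V.filter fun x : ℤ => |(x : ℝ) - (w.2 : ℝ)| ≤ ρ) := by
      intro z hz
      have hzP : z ∈ P := (Finset.mem_filter.1 (hFb ▸ hz)).1
      have hzUV := Finset.mem_product.1 (hP hzP)
      have h1 := hmem z hz
      have h2 := hmem w hw
      refine Finset.mem_product.2 ⟨Finset.mem_filter.2 ⟨hzUV.1, ?_⟩,
        Finset.mem_filter.2 ⟨hzUV.2, ?_⟩⟩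
      · have h3 := key _ _ (h1.2.trans h2.2.symm)
        have h4 : ((z.1 : ℝ) - c * (v : ℝ)) - ((w.1 : ℝ) - c * (v : ℝ)) =
            (z.1 : ℝ) - (w.1 : ℝ) := by ring
        rw [h4] at h3
        linarith
      · have h3 := key _ _ (h1.1.trans h2.1.symm)
        have h4 : ((u : ℝ) - c * (z.2 : ℝ)) - ((u : ℝ) - c * (w.2 : ℝ)) =
            -(c * ((z.2 : ℝ) - (w.2 : ℝ))) := by ring
        rw [h4, abs_neg, abs_mul] at h3
        by_contra hcon
        have hcon' : ρ < |(z.2 : ℝ) - (w.2 : ℝ)| := not_le.1 hcon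
        have : ρ * |c| < |(z.2 : ℝ) - (w.2 : ℝ)| * |c| := mul_lt_mul_of_pos_right hcon' hc0
        nlinarith
    refine (Finset.card_le_card hsub).trans ?_
    rw [Finset.card_product]
    exact Nat.mul_le_mul (spa_card hU _) (spa_card hV _)

lemma floor_three (c r : ℝ) (hr : 0 < r) (u v u1 v1 : ℤ) :
    -1 ≤ ⌊((u : ℝ) - c * v) / r⌋ - (⌊((u : ℝ) - c * v1) / r⌋ - ⌊((u1 : ℝ) - c * v1) / r⌋ +
      ⌊((u1 : ℝ) - c * v) / r⌋) ∧
    ⌊((u : ℝ) - c * v) / r⌋ - (⌊((u : ℝ) - c * v1) / r⌋ - ⌊((u1 : ℝ) - c * v1) / r⌋ +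
      ⌊((u1 : ℝ) - c * v) / r⌋) ≤ 1 := by
  have e : ((u : ℝ) - c * v) / r = ((u : ℝ) - c * v1) / r - ((u1 : ℝ) - c * v1) / r +
      ((u1 : ℝ) - c * v) / r := by
    field_simp
    ring
  have a1 := Int.floor_le (((u : ℝ) - c * v) / r)
  have a2 := Int.lt_floor_add_one (((u : ℝ) - c * v) / r)
  have b1 := Int.floor_le (((u : ℝ) - c * v1) / r)
  have b2 := Int.lt_floor_add_one (((u : ℝ) - c * v1) / r)
  have c1 := Int.floor_le (((u1 : ℝ) - c * v1) / r)
  have c2 := Int.lt_floor_add_one (((u1 : ℝ) - c * v1) / r)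
  have d1 := Int.floor_le (((u1 : ℝ) - c * v) / r)
  have d2 := Int.lt_floor_add_one (((u1 : ℝ) - c * v) / r)
  generalize ⌊((u : ℝ) - c * v) / r⌋ = w at *
  generalize ⌊((u : ℝ) - c * v1) / r⌋ = X at *
  generalize ⌊((u1 : ℝ) - c * v1) / r⌋ = Y at *
  generalize ⌊((u1 : ℝ) - c * v) / r⌋ = Z at *
  constructor
  · have : (-2 : ℝ) < ((w - (X - Y + Z) : ℤ) : ℝ) := by push_cast; linarith
    have h2 : (-2 : ℤ) < w - (X - Y + Z) := by exact_mod_cast this
    omega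
  · have : ((w - (X - Y + Z) : ℤ) : ℝ) < (2 : ℝ) := by push_cast; linarith
    have h2 : w - (X - Y + Z) < (2 : ℤ) := by exact_mod_cast this
    omega

/-- The double counting. -/
lemma double_count (W : Finset ℤ) (S3 : Finset (ℤ × ℤ × ℤ)) (T : ℤ → Finset (ℤ × ℤ × ℤ)) (q : ℝ)
    (hT : ∀ w ∈ W, T w ⊆ S3)
    (h3 : ∀ w ∈ W, ∀ s ∈ T w, -1 ≤ w - (s.1 - s.2.1 + s.2.2) ∧ w - (s.1 - s.2.1 + s.2.2) ≤ 1)
    (hq : ∀ w ∈ W, q ≤ ((T w).card : ℝ)) :
    (W.card : ℝ) * q ≤ 3 * (S3.card : ℝ) := by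
  have h1 : (W.card : ℝ) * q ≤ ∑ w ∈ W, ((T w).card : ℝ) := by
    rw [← nsmul_eq_mul, ← Finset.sum_const]
    exact Finset.sum_le_sum hq
  have h2 : ∑ w ∈ W, ((T w).card : ℝ) = ∑ s ∈ S3, ((W.filter fun w => s ∈ T w).card : ℝ) := by
    have e1 : ∀ w ∈ W, ((T w).card : ℝ) = ∑ s ∈ S3, if s ∈ T w then (1 : ℝ) else 0 := by
      intro w hw
      rw [← Finset.sum_filter, Finset.sum_const, nsmul_eq_mul, mul_one]
      congr 2
      ext s
      simp only [Finset.mem_filter]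
      exact ⟨fun h => ⟨hT w hw h, h⟩, fun h => h.2⟩
    rw [Finset.sum_congr rfl e1, Finset.sum_comm]
    refine Finset.sum_congr rfl fun s _ => ?_
    rw [← Finset.sum_filter, Finset.sum_const, nsmul_eq_mul, mul_one]
  have h4 : ∑ s ∈ S3, ((W.filter fun w => s ∈ T w).card : ℝ) ≤ ∑ s ∈ S3, (3 : ℝ) := by
    refine Finset.sum_le_sum fun s _ => ?_
    have hsub : (W.filter fun w => s ∈ T w) ⊆
        Finset.Icc (s.1 - s.2.1 + s.2.2 - 1) (s.1 - s.2.1 + s.2.2 + 1) := by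
      intro w hw
      rw [Finset.mem_filter] at hw
      have := h3 w hw.1 s hw.2
      rw [Finset.mem_Icc]
      constructor <;> linarith [this.1, this.2]
    have hc := Finset.card_le_card hsub
    rw [Int.card_Icc] at hc
    have hc' : (W.filter fun w => s ∈ T w).card ≤ 3 := by
      refine hc.trans ?_
      omega
    exact_mod_cast hc'
  rw [Finset.sum_const, nsmul_eq_mul] at h4
  linarith

end XBSGU

open XBSGU in
theorem I_BSGU : StBSGU := by
  classical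
  intro L k c r ρ U V E hL hk hr1 hrρ hc hSU hSV hE hU hV hkE hS
  have hr0 : 0 < r := by linarith
  have hk0 : 0 < k := by linarith
  have hL0 : 0 < L := by linarith
  have hE0 : 0 < (E.card : ℝ) := by
    have : 0 < k ^ 2 := by positivity
    by_contra hcon
    have hz : (E.card : ℝ) = 0 := le_antisymm (not_lt.1 hcon) (Nat.cast_nonneg _)
    rw [hz, mul_zero] at hkE
    linarith
  have hEne : E.Nonempty := by
    rw [← Finset.card_pos]
    exact_mod_cast hE0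
  set A := U ∪ V with hA
  have hAne : A.Nonempty := by
    obtain ⟨z, hz⟩ := hEne
    have := Finset.mem_product.1 (hE hz)
    exact ⟨z.1, Finset.mem_union_left _ this.1⟩
  have hA0 : 0 < (A.card : ℝ) := by exact_mod_cast hAne.card_pos
  have hA2 : (A.card : ℝ) ≤ 2 * L * k := by
    have : (A.card : ℝ) ≤ (U.card : ℝ) + (V.card : ℝ) := by
      exact_mod_cast Finset.card_union_le U V
    linarith
  set n : ℝ := (A.card : ℝ) with hn
  set α : ℝ := k ^ 2 / (L * n ^ 2) with hα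
  have hα0 : 0 < α := by positivity
  have hαn : α * n ^ 2 = k ^ 2 / L := by
    rw [hα]; field_simp
  have hsum : α * (A.card : ℝ) ^ 2 ≤ ∑ a ∈ A, ((A.filter fun b => (a, b) ∈ E).card : ℝ) := by
    rw [← hn, hαn]
    have h1 : (E.card : ℝ) ≤ ∑ a ∈ A, ((A.filter fun b => (a, b) ∈ E).card : ℝ) := by
      have h2 : E.card = ∑ a ∈ A, (E.filter fun z => z.1 = a).card :=
        Finset.card_eq_sum_card_fiberwise (f := fun z : ℤ × ℤ => z.1) (fun z hz => by
          have := Finset.mem_product.1 (hE hz)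
          exact Finset.mem_coe.2 (Finset.mem_union_left _ this.1))
      rw [h2]
      push_cast
      refine Finset.sum_le_sum fun a _ => ?_
      have h3 : (E.filter fun z => z.1 = a).card ≤ (A.filter fun b => (a, b) ∈ E).card := by
        refine Finset.card_le_card_of_injOn (fun z : ℤ × ℤ => z.2) ?_ ?_
        · intro z hz
          have hz' := Finset.mem_filter.1 (Finset.mem_coe.1 hz)
          have hz2 := Finset.mem_product.1 (hE hz'.1)
          refine Finset.mem_coe.2 (Finset.mem_filter.2 ⟨Finset.mem_union_right _ hz2.2, ?_⟩)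
          have : (a, z.2) = z := by
            rw [← hz'.2]
          rw [this]
          exact hz'.1
        · intro z hz w hw hzw
          have hz' := Finset.mem_filter.1 (Finset.mem_coe.1 hz)
          have hw' := Finset.mem_filter.1 (Finset.mem_coe.1 hw)
          exact Prod.ext (hz'.2.trans hw'.2.symm) hzw
      exact_mod_cast h3
    have h4 : k ^ 2 / L ≤ (E.card : ℝ) := by
      rw [div_le_iff₀ hL0]
      linarith
    linarith
  obtain ⟨A', hA'A, B', hB'A, hA'c, hB'c, hpath⟩ :=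
    Pool.Agent.F39168.SD.exists_paths A (fun a b => (a, b) ∈ E) hAne hα0 (by convert hsum)
  rw [← hn] at hA'c hB'c
  have hαn1 : k ≤ 2 * L ^ 2 * (α * n) := by
    have e : α * n = k ^ 2 / (L * n) := by rw [hα]; field_simp
    rw [e, ← mul_div_assoc, le_div_iff₀ (by positivity)]
    nlinarith [mul_le_mul_of_nonneg_left hA2 (show 0 ≤ k * L by positivity)]
  have hLpow : 12 * L ^ 2 ≤ L ^ 22 := by
    have h1 : (1 : ℝ) ≤ L ^ 19 := one_le_pow₀ (by linarith)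
    have h2 : L ^ 22 = L ^ 19 * L * L ^ 2 := by ring
    rw [h2]
    have h3 : 12 ≤ L ^ 19 * L := by nlinarith
    exact mul_le_mul_of_nonneg_right h3 (by positivity)
  have hA'k : k ≤ L ^ 22 * (A'.card : ℝ) := by
    have h1 : k ≤ 2 * L ^ 2 * (6 * (A'.card : ℝ)) :=
      hαn1.trans (mul_le_mul_of_nonneg_left hA'c (by positivity))
    have h2 : 12 * L ^ 2 * (A'.card : ℝ) ≤ L ^ 22 * (A'.card : ℝ) :=
      mul_le_mul_of_nonneg_right hLpow (Nat.cast_nonneg _)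
    linarith
  have hB'k : k ≤ L ^ 22 * (B'.card : ℝ) := by
    have h1 : k ≤ 2 * L ^ 2 * (4 * (B'.card : ℝ)) :=
      hαn1.trans (mul_le_mul_of_nonneg_left hB'c (by positivity))
    have h2 : 12 * L ^ 2 * (B'.card : ℝ) ≤ L ^ 22 * (B'.card : ℝ) :=
      mul_le_mul_of_nonneg_right hLpow (Nat.cast_nonneg _)
    have h3 : 0 ≤ L ^ 2 * (B'.card : ℝ) := by positivity
    linarith
  have hA'ne : A'.Nonempty := by
    rw [← Finset.card_pos]
    by_contra hcon
    have hz : A'.card = 0 := by omega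
    rw [hz] at hA'k
    simp at hA'k
    linarith
  have hB'ne : B'.Nonempty := by
    rw [← Finset.card_pos]
    by_contra hcon
    have hz : B'.card = 0 := by omega
    rw [hz] at hB'k
    simp at hB'k
    linarith
  -- number of paths
  have hcount : ∀ a ∈ A', ∀ b ∈ B', k ^ 2 / L ^ 17 ≤
      (((A ×ˢ A).filter fun z => (a, z.2) ∈ E ∧ (z.1, z.2) ∈ E ∧ (z.1, b) ∈ E).card : ℝ) := by
    intro a ha b hb
    have h1 : α ^ 5 * (A.card : ℝ) ^ 2 ≤ 12288 *
        (((A ×ˢ A).filter fun z => (a, z.2) ∈ E ∧ (z.1, z.2) ∈ E ∧ (z.1, b) ∈ E).card : ℝ) := by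
      convert hpath a ha b hb
    rw [← hn] at h1
    have e : α ^ 5 * n ^ 2 = k ^ 10 / (L ^ 5 * n ^ 8) := by rw [hα]; field_simp
    rw [e] at h1
    have h2 : n ^ 8 ≤ (2 * L * k) ^ 8 := pow_le_pow_left₀ hA0.le hA2 8
    have h3 : k ^ 10 / (L ^ 5 * (2 * L * k) ^ 8) ≤ k ^ 10 / (L ^ 5 * n ^ 8) := by
      apply div_le_div_of_nonneg_left (by positivity) (by positivity)
      exact mul_le_mul_of_nonneg_left h2 (by positivity)
    have h4 : k ^ 10 / (L ^ 5 * (2 * L * k) ^ 8) = k ^ 2 / (256 * L ^ 13) := by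
      rw [div_eq_div_iff (by positivity) (by positivity)]
      ring
    have h5 : 12288 * (k ^ 2 / L ^ 17) ≤ k ^ 2 / (256 * L ^ 13) := by
      rw [← mul_div_assoc, div_le_div_iff₀ (by positivity) (by positivity)]
      have h6 : (12288 * 256 : ℝ) ≤ L ^ 4 := by
        have : (100 : ℝ) ^ 4 ≤ L ^ 4 := pow_le_pow_left₀ (by norm_num) hL 4
        norm_num at this ⊢
        linarith
      have h7 : 12288 * k ^ 2 * (256 * L ^ 13) = (12288 * 256) * (k ^ 2 * L ^ 13) := by ring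
      have h8 : k ^ 2 * L ^ 17 = L ^ 4 * (k ^ 2 * L ^ 13) := by ring
      rw [h7, h8]
      exact mul_le_mul_of_nonneg_right h6 (by positivity)
    have h9 : 12288 * (k ^ 2 / L ^ 17) ≤ 12288 *
        (((A ×ˢ A).filter fun z => (a, z.2) ∈ E ∧ (z.1, z.2) ∈ E ∧ (z.1, b) ∈ E).card : ℝ) := by
      refine h5.trans (le_trans (h4 ▸ h3) ?_)
      exact h1
    linarith
  have hpi : 0 < k ^ 2 / L ^ 17 := by positivity
  have hpne : ∀ a ∈ A', ∀ b ∈ B', ∃ z : ℤ × ℤ, (a, z.2) ∈ E ∧ (z.1, z.2) ∈ E ∧ (z.1, b) ∈ E := by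
    intro a ha b hb
    have h1 := hpi.trans_le (hcount a ha b hb)
    have h2 : 0 < ((A ×ˢ A).filter fun z => (a, z.2) ∈ E ∧ (z.1, z.2) ∈ E ∧ (z.1, b) ∈ E).card := by
      exact_mod_cast h1
    obtain ⟨z, hz⟩ := Finset.card_pos.1 h2
    exact ⟨z, (Finset.mem_filter.1 hz).2⟩
  obtain ⟨b0, hb0⟩ := hB'ne
  obtain ⟨a0, ha0⟩ := hA'ne
  refine ⟨A', ?_, B', ?_, hA'k, hB'k, ?_, ?_⟩
  · intro a ha
    obtain ⟨z, hz, _, _⟩ := hpne a ha b0 hb0
    exact (Finset.mem_product.1 (hE hz)).1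
  · intro b hb
    obtain ⟨z, _, _, hz⟩ := hpne a0 ha0 b hb
    exact (Finset.mem_product.1 (hE hz)).2
  · -- the image
    set g : ℤ × ℤ → ℤ := fun z => ⌊((z.1 : ℝ) - c * (z.2 : ℝ)) / r⌋ with hg
    set S := E.image g with hSdef
    set W := (A' ×ˢ B').image g with hW
    have hch : ∀ w ∈ W, ∃ z : ℤ × ℤ, z ∈ A' ×ˢ B' ∧ g z = w := by
      intro w hw
      obtain ⟨z, hz, hzw⟩ := Finset.mem_image.1 hw
      exact ⟨z, hz, hzw⟩
    choose! rep hrep hrepg using hch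
    set T : ℤ → Finset (ℤ × ℤ × ℤ) := fun w =>
      ((A ×ˢ A).filter fun z => ((rep w).1, z.2) ∈ E ∧ (z.1, z.2) ∈ E ∧ (z.1, (rep w).2) ∈ E).image
        fun z : ℤ × ℤ => ((⌊(((rep w).1 : ℝ) - c * (z.2 : ℝ)) / r⌋,
          ⌊((z.1 : ℝ) - c * (z.2 : ℝ)) / r⌋,
          ⌊((z.1 : ℝ) - c * ((rep w).2 : ℝ)) / r⌋) : ℤ × ℤ × ℤ) with hT
    have hdc := double_count W (S ×ˢ (S ×ˢ S)) T (k ^ 2 / L ^ 17 / L ^ 2) ?_ ?_ ?_
    · rw [Finset.card_product, Finset.card_product] at hdc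
      push_cast at hdc
      have hS3 : (S.card : ℝ) * ((S.card : ℝ) * (S.card : ℝ)) ≤ (L * k) ^ 3 := by
        have h0 : (0 : ℝ) ≤ (S.card : ℝ) := Nat.cast_nonneg _
        have h1 : (S.card : ℝ) ^ 3 ≤ (L * k) ^ 3 := pow_le_pow_left₀ h0 hS 3
        calc (S.card : ℝ) * ((S.card : ℝ) * (S.card : ℝ)) = (S.card : ℝ) ^ 3 := by ring
          _ ≤ _ := h1
      have h1 : (W.card : ℝ) * (k ^ 2 / L ^ 17 / L ^ 2) ≤ 3 * (L * k) ^ 3 :=
        hdc.trans (mul_le_mul_of_nonneg_left hS3 (by norm_num))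
      have h2 : (W.card : ℝ) * k ^ 2 ≤ 3 * (L * k) ^ 3 * (L ^ 17 * L ^ 2) := by
        have e : (W.card : ℝ) * (k ^ 2 / L ^ 17 / L ^ 2) =
            (W.card : ℝ) * k ^ 2 / (L ^ 17 * L ^ 2) := by
          field_simp
        rw [e, div_le_iff₀ (by positivity)] at h1
        exact h1
      have h3 : (3 : ℝ) ≤ L ^ 2 := by nlinarith
      have h4 : 3 * (L * k) ^ 3 * (L ^ 17 * L ^ 2) ≤ L ^ 24 * k * k ^ 2 := by
        have e1 : 3 * (L * k) ^ 3 * (L ^ 17 * L ^ 2) = 3 * (L ^ 22 * k ^ 3) := by ring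
        have e2 : L ^ 24 * k * k ^ 2 = L ^ 2 * (L ^ 22 * k ^ 3) := by ring
        rw [e1, e2]
        exact mul_le_mul_of_nonneg_right h3 (by positivity)
      have h5 : (W.card : ℝ) * k ^ 2 ≤ L ^ 24 * k * k ^ 2 := h2.trans h4
      exact le_of_mul_le_mul_right h5 (by positivity)
    · intro w hw s hs
      rw [hT] at hs
      obtain ⟨z, hz, rfl⟩ := Finset.mem_image.1 hs
      obtain ⟨_, hz1, hz2, hz3⟩ := Finset.mem_filter.1 hz
      refine Finset.mem_product.2 ⟨?_, Finset.mem_product.2 ⟨?_, ?_⟩⟩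
      · exact Finset.mem_image.2 ⟨_, hz1, rfl⟩
      · exact Finset.mem_image.2 ⟨_, hz2, rfl⟩
      · exact Finset.mem_image.2 ⟨_, hz3, rfl⟩
    · intro w hw s hs
      rw [hT] at hs
      obtain ⟨z, hz, rfl⟩ := Finset.mem_image.1 hs
      have := floor_three c r hr0 (rep w).1 (rep w).2 z.1 z.2
      have hw' := hrepg w hw
      rw [hg] at hw'
      simp only at hw'
      rw [hw'] at this
      exact this
    · intro w hw
      have hr := Finset.mem_product.1 (hrep w hw)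
      have h1 := hcount _ hr.1 _ hr.2
      have h2 := paths_le L c r ρ U V hr1 hrρ hc hSU hSV (rep w).1 (rep w).2
        ((A ×ˢ A).filter fun z => ((rep w).1, z.2) ∈ E ∧ (z.1, z.2) ∈ E ∧ (z.1, (rep w).2) ∈ E)
        (by
          intro z hz
          exact hE (Finset.mem_filter.1 hz).2.2.1)
      have h3 : (((⌊L⌋₊ * ⌊L⌋₊ : ℕ) : ℝ)) ≤ L ^ 2 := by
        push_cast
        have h5 := Nat.floor_le hL0.le
        have h6 : (0 : ℝ) ≤ (⌊L⌋₊ : ℝ) := Nat.cast_nonneg _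
        nlinarith
      have h4 : (((A ×ˢ A).filter fun z => ((rep w).1, z.2) ∈ E ∧ (z.1, z.2) ∈ E ∧
          (z.1, (rep w).2) ∈ E).card : ℝ) ≤ ((⌊L⌋₊ * ⌊L⌋₊ : ℕ) : ℝ) * ((T w).card : ℝ) := by
        exact_mod_cast h2
      rw [div_le_iff₀ (by positivity)]
      have h5 : ((⌊L⌋₊ * ⌊L⌋₊ : ℕ) : ℝ) * ((T w).card : ℝ) ≤ L ^ 2 * ((T w).card : ℝ) :=
        mul_le_mul_of_nonneg_right h3 (Nat.cast_nonneg _)
      linarith
  · intro u hu
    have h1 := hcount u hu b0 hb0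
    have h2 : ((A ×ˢ A).filter fun z => (u, z.2) ∈ E ∧ (z.1, z.2) ∈ E ∧ (z.1, b0) ∈ E).card ≤
        A.card * (V.filter fun v => (u, v) ∈ E).card := by
      rw [← Finset.card_product]
      refine Finset.card_le_card ?_
      intro z hz
      obtain ⟨hz0, hz1, hz2, hz3⟩ := Finset.mem_filter.1 hz
      refine Finset.mem_product.2 ⟨(Finset.mem_product.1 hz0).1, Finset.mem_filter.2 ⟨?_, hz1⟩⟩
      exact (Finset.mem_product.1 (hE hz1)).2
    have h3 : (((A ×ˢ A).filter fun z => (u, z.2) ∈ E ∧ (z.1, z.2) ∈ E ∧ (z.1, b0) ∈ E).card : ℝ) ≤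
        n * ((V.filter fun v => (u, v) ∈ E).card : ℝ) := by
      rw [hn]
      exact_mod_cast h2
    set d : ℝ := ((V.filter fun v => (u, v) ∈ E).card : ℝ) with hd
    have hd0 : 0 ≤ d := Nat.cast_nonneg _
    have h4 : k ^ 2 / L ^ 17 ≤ 2 * L * k * d :=
      h1.trans (h3.trans (mul_le_mul_of_nonneg_right hA2 hd0))
    rw [div_le_iff₀ (by positivity)] at h4
    have h5 : k * k ≤ k * (2 * L ^ 18 * d) := by
      calc k * k = k ^ 2 := by ring
        _ ≤ 2 * L * k * d * L ^ 17 := h4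
        _ = k * (2 * L ^ 18 * d) := by ring
    have h6 : k ≤ 2 * L ^ 18 * d := le_of_mul_le_mul_left h5 hk0
    have h7 : 2 * L ^ 18 ≤ L ^ 22 := by
      have h8 : (1 : ℝ) ≤ L ^ 3 := one_le_pow₀ (by linarith)
      have h9 : L ^ 22 = L ^ 3 * L * L ^ 18 := by ring
      rw [h9]
      have h10 : 2 ≤ L ^ 3 * L := by nlinarith
      exact mul_le_mul_of_nonneg_right h10 (by positivity)
    exact h6.trans (mul_le_mul_of_nonneg_right h7 hd0)

end Pool.Agent.Work.MP_e17eac_co.RINGU
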