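import Pool.Agent.Work.MP_e17eac_co.Bd.B28

/-!
# Ring module, uniform version: the affine copy
-/

namespace Pool.Agent.Work.MP_e17eac_co.RINGU

open Finset
open scoped Pointwise
open Pool.Agent.Work.MP_e17eac_co.RING
open Pool.Agent.Work.MP_e17eac_co.RING.XRL

namespace XRLU

variable {a R K : ℝ} {A : Finset ℝ} {T : Finset (ℝ × ℝ)} {I : Finset ((ℝ × ℝ) × ℝ)}

lemma le_of_rp {x y : ℝ} (ha : 0 < a) (hx : 0 ≤ x) (hy : 0 ≤ y) (h : x ^ a ≤ y ^ a) : x ≤ y :=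
  (Real.rpow_le_rpow_iff hx hy ha).mp h

lemma rp_inv {x : ℝ} (ha : 0 < a) (hx : 0 ≤ x) : (x ^ (1 / a)) ^ a = x := by
  rw [← Real.rpow_mul hx, one_div, inv_mul_cancel₀ ha.ne', Real.rpow_one]

/-- Regularity of the multipliers. -/
lemma reg_cc {W L x₁ x₂ : ℝ} {C : Finset ℝ} (hR : 1 ≤ R) (hK : 0 < K)
    (hreg : RegA a R K A) (hCA : C ⊆ A) (hW : 1 ≤ W) (hs : ∀ x ∈ A, 0 ≤ x ∧ x ≤ 1)
    (hx₂ : 0 ≤ x₂ ∧ x₂ ≤ 1) (h12 : 1 ≤ W * |x₁ - x₂|) (hC : ∀ x ∈ C, 1 ≤ W * |x - x₂|)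
    (hL : K * (2 * W) ^ a ≤ L) (c δ : ℝ) (hδ : 1 ≤ R * δ) :
    (((C.image (cc x₁ x₂)).filter fun c' => |c' - c| ≤ δ).card : ℝ) ≤ L * (R * δ) ^ a := by
  have hR0 : 0 < R := by linarith
  have hδ0 : 0 < δ := by
    by_contra hc
    nlinarith
  have hL0 : 0 < L := lt_of_lt_of_le (by positivity) hL
  rcases ((C.image (cc x₁ x₂)).filter fun c' => |c' - c| ≤ δ).eq_empty_or_nonempty with he | ⟨c₀, hc₀⟩
  · rw [he, card_empty, Nat.cast_zero]
    positivity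
  · rw [mem_filter, mem_image] at hc₀
    obtain ⟨⟨y, hy, rfl⟩, hyc⟩ := hc₀
    have h1 : ((C.image (cc x₁ x₂)).filter fun c' => |c' - c| ≤ δ).card ≤
        (A.filter fun x => |x - y| ≤ (2 * W * (R * δ)) / R).card := by
      have : (C.image (cc x₁ x₂)).filter (fun c' => |c' - c| ≤ δ) ⊆
          (A.filter fun x => |x - y| ≤ (2 * W * (R * δ)) / R).image (cc x₁ x₂) := by
        intro c' hc'
        rw [mem_filter, mem_image] at hc'
        obtain ⟨⟨x, hx, rfl⟩, hxc⟩ := hc'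
        refine mem_image.mpr ⟨x, mem_filter.mpr ⟨hCA hx, ?_⟩, rfl⟩
        have e1 := cc_ge hW (hs x (hCA hx)) (hs y (hCA hy)) hx₂ h12 (hC x hx) (hC y hy)
        have e2 : |cc x₁ x₂ x - cc x₁ x₂ y| ≤ δ + δ := by
          calc |cc x₁ x₂ x - cc x₁ x₂ y| ≤ |cc x₁ x₂ x - c| + |c - cc x₁ x₂ y| :=
              abs_sub_le _ _ _
            _ ≤ δ + δ := by
              rw [abs_sub_comm c]
              gcongr
        calc |x - y| ≤ W * |cc x₁ x₂ x - cc x₁ x₂ y| := e1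
          _ ≤ W * (δ + δ) := by gcongr
          _ = (2 * W * (R * δ)) / R := by field_simp; ring
      exact (card_le_card this).trans card_image_le
    have h2 := hreg y (2 * W * (R * δ)) (by nlinarith)
    refine le_trans (by exact_mod_cast h1) (h2.trans ?_)
    rw [Real.mul_rpow (by positivity) (by positivity), ← mul_assoc]
    gcongr

lemma copy (hSel : StSel) (hPrune : StPrune) (hEdge : StEdgeU) (hCls : StClsU) (hBSG : StBSGU)
    (hPop : StPop) (hDil : StDilU) (hNear : StNearU) (hTri : StTri) (hAff : StAffU)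
    (ha : 0 < a) (ha1 : a ≤ 1) (hK : 100 ≤ K) (hR : 1 ≤ R) (hKR : K ^ 1000000 ≤ R ^ a)
    {W M : ℝ} (hWdef : W = (K ^ 10) ^ (1 / a)) (hMdef : M = (K ^ 120000) ^ (1 / a))
    (h : Config a R K A T I) :
    ∃ (x₁ x₂ x₀ : ℝ) (C : Finset ℝ) (A₀ : Finset ℤ) (β Y : ℝ) (r : ℝ → ℤ),
      x₁ ∈ A ∧ x₂ ∈ A ∧ x₀ ∈ A ∧ C ⊆ A ∧ 1 ≤ W * |x₁ - x₂| ∧
      1 ≤ W * |x₀ - x₁| ∧ 1 ≤ W * |x₀ - x₂| ∧ Spa (K ^ 120) (W ^ 4) A₀ ∧
      (∀ u ∈ A₀, |(u : ℝ)| ≤ 3 * R) ∧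
      ((dl (cc x₁ x₂ x₀ / (W * W)) A₀ - dl (cc x₁ x₂ x₀ / (W * W)) A₀).card : ℝ) ≤
        K ^ 337920 * R ^ a ∧
      (∀ x ∈ C, 1 ≤ W * |x - x₁| ∧ 1 ≤ W * |x - x₂| ∧
        ((dl (cc x₁ x₂ x / (W * W)) A₀ - dl (cc x₁ x₂ x₀ / (W * W)) A₀).card : ℝ) ≤
          K ^ 337920 * R ^ a ∧
        r x ∈ A₀ ∧ |(r x : ℝ) - (β + Y * cc x₁ x₂ x)| ≤ 3 * W) ∧
      R ^ a ≤ K ^ 240000 * (C.card : ℝ) ∧ R ≤ 2 * W * M * |Y| ∧
      R ^ a ≤ K ^ 2640 * (A₀.card : ℝ) := by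
  have hR0 : 0 < R := by linarith
  have hK1 : 1 ≤ K := by linarith
  have hK0 : 0 < K := by linarith
  have hkk : 1 ≤ R ^ a := Real.one_le_rpow hR ha.le
  have hp : ∀ {m n : ℕ}, m ≤ n → K ^ m ≤ K ^ n := fun hmn => pow_le_pow_right₀ hK1 hmn
  have h1a : 0 ≤ 1 / a := by positivity
  have hWa : W ^ a = K ^ 10 := by rw [hWdef]; exact rp_inv ha (by positivity)
  have hMa : M ^ a = K ^ 120000 := by rw [hMdef]; exact rp_inv ha (by positivity)
  have hW1 : 1 ≤ W := by rw [hWdef]; exact Real.one_le_rpow (one_le_pow₀ hK1) h1a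
  have hM1 : 1 ≤ M := by rw [hMdef]; exact Real.one_le_rpow (one_le_pow₀ hK1) h1a
  have hW0 : 0 < W := by linarith
  have hM0 : 0 < M := by linarith
  have hWR : W ≤ R := le_of_rp ha hW0.le hR0.le (by
    rw [hWa]
    exact (hp (by norm_num)).trans hKR)
  have hMR : M ≤ R := le_of_rp ha hM0.le hR0.le (by
    rw [hMa]
    exact (hp (by norm_num)).trans hKR)
  have h4WMR : 4 * W * M ≤ R := le_of_rp ha (by positivity) hR0.le (by
    rw [Real.mul_rpow (by positivity) hM0.le, Real.mul_rpow (by norm_num) hW0.le, hWa, hMa]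
    have h4 : (4 : ℝ) ^ a ≤ K := by
      calc (4 : ℝ) ^ a ≤ (4 : ℝ) ^ (1 : ℝ) := Real.rpow_le_rpow_of_exponent_le (by norm_num) ha1
        _ = 4 := Real.rpow_one _
        _ ≤ K := by linarith
    calc (4 : ℝ) ^ a * K ^ 10 * K ^ 120000 ≤ K * K ^ 10 * K ^ 120000 := by gcongr
      _ = K ^ 120011 := by ring
      _ ≤ K ^ 1000000 := hp (by norm_num)
      _ ≤ R ^ a := hKR)
  obtain ⟨x₁, hx₁, x₂, hx₂, h12, X, hXA, hXc, hX⟩ := sel hSel h hR ha hK hW1 hWR hWa.ge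
  have hXne : X.Nonempty := by
    rw [nonempty_iff_ne_empty]
    rintro rfl
    rw [card_empty, Nat.cast_zero, mul_zero] at hXc
    linarith
  obtain ⟨T', hT', s1, s2, hpr⟩ := prune hPrune h hR ha ha1 hK hW1 hWa.le hx₁ hx₂ h12
  obtain ⟨x₀, hx₀, X₀, hX₀, A₀, hA₀, hX₀c, hA₀c, hYY, hX₀p⟩ := popular hEdge hCls hBSG hPop hDil h
    hR ha ha1 hK hW1 hWa.le hx₁ hx₂ h12 hT' s1 s2 hXA hXne
    (fun x hx => ⟨(hX x hx).1, (hX x hx).2.1, hpr x (hX x hx).2.2⟩)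
  obtain ⟨k, hk⟩ : ∃ k, k = R ^ a := ⟨_, rfl⟩
  rw [← hk] at hXc hX hA₀c hX₀p hkk hKR hYY
  have hk0 : 0 < k := by linarith
  obtain ⟨L, hL⟩ : ∃ L, L = K ^ 24000 := ⟨_, rfl⟩
  have hLn : ∀ n, n ≤ 24000 → K ^ n ≤ L := fun n hn => by rw [hL]; exact hp hn
  have hKL : K ≤ L := by
    calc K = K ^ 1 := (pow_one K).symm
      _ ≤ L := hLn 1 (by norm_num)
  have hL100 : 100 ≤ L := hK.trans hKL
  have hL1 : 1 ≤ L := by linarith
  have hL0 : 0 < L := by linarith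
  have hL5 : L ^ 5 = K ^ 120000 := by rw [hL, ← pow_mul]
  have hLk : 400 * L ^ 4 * K ^ 3 ≤ k := by
    calc 400 * L ^ 4 * K ^ 3 ≤ (K * K) * L ^ 4 * K ^ 3 := by gcongr; nlinarith
      _ = K ^ 96005 := by rw [hL]; ring
      _ ≤ K ^ 1000000 := hp (by norm_num)
      _ ≤ k := hKR
  have hX₀A : X₀ ⊆ A := hX₀.trans hXA
  have hs := h.slope
  have hTT : T' ⊆ T := hT'.trans (filter_subset _ _)
  -- the triples
  obtain ⟨p₀, hp₀, y, hy, hcount⟩ := hTri L k (R / M) x₂ T X₀ (cl (bb x₂) T')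
    (GU T' I x₁ A₀) hL1 hk0
    (by
      have := cardT h hR
      rw [← hk] at this
      exact this.trans (by gcongr))
    (by
      have := cl_le h hx₂ T' (fun p hp => (mem_filter.mp (hT' hp)).2.2)
      rw [← hk] at this
      exact this.trans (by gcongr))
    (by
      calc k ≤ 4 * K ^ 8 * (X.card : ℝ) := hXc
        _ ≤ K * K ^ 8 * (K ^ 23760 * (X₀.card : ℝ)) := by gcongr; linarith
        _ = K ^ 23769 * (X₀.card : ℝ) := by ring
        _ ≤ L * (X₀.card : ℝ) := by gcongr; exact hLn _ (by norm_num))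
    (by
      intro x hx
      refine ⟨(filter_subset _ _).trans ((filter_subset _ _).trans hTT), ?_, ?_, ?_⟩
      · exact (hX₀p x hx).2.trans (by gcongr; exact hLn _ (by norm_num))
      · have := cl_le h (hX₀A hx) (GU T' I x₁ A₀ x)
          (fun p hp => (mem_filter.mp (mem_filter.mp hp).1).2)
        rw [← hk] at this
        exact this.trans (by gcongr)
      · intro p hp
        exact mem_image.mpr ⟨p, (mem_filter.mp (mem_filter.mp hp).1).1, rfl⟩)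
    (by
      have h1 := hNear a R K M A T ha ha1 hM1 hMR hK1 hs (by
        have := cardT h hR
        refine this.trans_eq ?_
        rw [← Real.rpow_natCast, ← Real.rpow_mul hR0.le]
        congr 2
        push_cast
        ring) (regA h) (regT h)
      have h2 : ((((T ×ˢ T) ×ˢ X₀).filter fun z => |z.1.1.1 - z.1.2.1| < R / M ∧
          |bb z.2 z.1.1 - bb z.2 z.1.2| < 1).card : ℝ) ≤
          ((((T ×ˢ T) ×ˢ A).filter fun z => |z.1.1.1 - z.1.2.1| < R / M ∧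
          |bb z.2 z.1.1 - bb z.2 z.1.2| < 1).card : ℝ) := by
        refine Nat.cast_le.mpr (card_le_card ?_)
        intro z hz
        rw [mem_filter, mem_product] at hz ⊢
        exact ⟨⟨hz.1.1, hX₀A hz.1.2⟩, hz.2⟩
      have e4 : R ^ (4 * a) = k ^ 4 := by
        rw [hk, ← Real.rpow_natCast, ← Real.rpow_mul hR0.le]
        congr 1
        push_cast
        ring
      have e3 : R ^ (3 * a) = k ^ 3 := by
        rw [hk, ← Real.rpow_natCast, ← Real.rpow_mul hR0.le]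
        congr 1
        push_cast
        ring
      rw [e4, e3, hMa, ← hL5] at h1
      have h3 : 100 * K ^ 3 * k ^ 4 / L ^ 5 ≤ k ^ 4 / (4 * L ^ 4) := by
        rw [div_le_div_iff₀ (by positivity) (by positivity)]
        have h400 : 400 * K ^ 3 ≤ L := by
          calc 400 * K ^ 3 ≤ (K * K) * K ^ 3 := by gcongr; nlinarith
            _ = K ^ 5 := by ring
            _ ≤ L := hLn _ (by norm_num)
        calc 100 * K ^ 3 * k ^ 4 * (4 * L ^ 4) = (400 * K ^ 3) * (L ^ 4 * k ^ 4) := by ring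
          _ ≤ L * (L ^ 4 * k ^ 4) := by gcongr
          _ = k ^ 4 * L ^ 5 := by ring
      have h4 : 100 * K ^ 3 * k ^ 3 ≤ k ^ 4 / (4 * L ^ 4) := by
        rw [le_div_iff₀ (by positivity)]
        calc 100 * K ^ 3 * k ^ 3 * (4 * L ^ 4) = (400 * L ^ 4 * K ^ 3) * k ^ 3 := by ring
          _ ≤ k * k ^ 3 := by gcongr
          _ = k ^ 4 := by ring
      calc 2 * L ^ 4 * _ ≤ 2 * L ^ 4 * (k ^ 4 / (4 * L ^ 4) + k ^ 4 / (4 * L ^ 4)) := by
            gcongr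
            exact (h2.trans h1).trans (add_le_add h3 h4)
        _ = k ^ 4 := by field_simp; norm_num)
  -- the affine copy
  have hX₀' : ∀ x ∈ X₀, 1 ≤ W * |x - x₁| ∧ 1 ≤ W * |x - x₂| := fun x hx =>
    ⟨(hX x (hX₀ hx)).1, (hX x (hX₀ hx)).2.1⟩
  obtain ⟨β, Y, r, C, hC, hCc, hY, hr⟩ := hAff a L W k (R / M) x₁ x₂ T X₀ A₀ (GU T' I x₁ A₀) p₀ y
    ha ha1 hL100 hW1 (by rw [hWa]; exact hLn _ (by norm_num)) hk0
    (by rw [le_div_iff₀ hM0]; exact h4WMR) (hs x₁ hx₁).1 (hs x₁ hx₁).2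
    (hs x₂ hx₂).1 (hs x₂ hx₂).2 h12
    (fun x hx => ⟨(hs x (hX₀A hx)).1, (hs x (hX₀A hx)).2, (hX₀' x hx).1,
      (hX₀' x hx).2, (filter_subset _ _).trans ((filter_subset _ _).trans hTT),
      fun p hp => (mem_filter.mp hp).2⟩)
    (fun q r hr => (h.regT q r hr).trans (by gcongr)) hcount
  rw [div_le_iff₀ hM0] at hY
  rw [← hk]
  refine ⟨x₁, x₂, x₀, C, A₀, β, Y, r, hx₁, hx₂, hXA hx₀, hC.trans hX₀A, h12, (hX x₀ hx₀).1,
    (hX x₀ hx₀).2.1, ?_, ?_, hYY, fun x hx => ⟨(hX₀' x (hC hx)).1, (hX₀' x (hC hx)).2,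
      (hX₀p x (hC hx)).1, (hr x hx).1, (hr x hx).2⟩, ?_, ?_, hA₀c⟩
  · exact fun y => le_trans (by exact_mod_cast card_le_card (filter_subset_filter _ hA₀)) (s1 y)
  · intro u hu
    have hu' := hA₀ hu
    rw [cl, mem_image] at hu'
    obtain ⟨p, hp, rfl⟩ := hu'
    have hb := h.box p (hTT hp)
    have hbb : |bb x₁ p| ≤ 2 * R := by
      rw [bb]
      calc |p.2 - x₁ * p.1| ≤ |p.2| + |x₁ * p.1| := abs_sub _ _
        _ ≤ R + 1 * R := by
          rw [abs_mul]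
          have : |x₁| ≤ 1 := by
            rw [abs_of_nonneg (hs x₁ hx₁).1]
            exact (hs x₁ hx₁).2
          gcongr
          · exact hb.2
          · exact hb.1
        _ = 2 * R := by ring
    have h1 := Int.floor_le (bb x₁ p)
    have h2 := Int.lt_floor_add_one (bb x₁ p)
    have h3 := abs_le.mp hbb
    exact abs_le.mpr ⟨by linarith [h3.1], by linarith [h3.2]⟩
  · calc k ≤ L ^ 10 * (C.card : ℝ) := hCc
      _ = K ^ 240000 * (C.card : ℝ) := by rw [hL, ← pow_mul]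
  · calc R ≤ 2 * W * |Y| * M := hY
      _ = 2 * W * M * |Y| := by ring

end XRLU

end Pool.Agent.Work.MP_e17eac_co.RINGU
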